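import Pool.Agent.V5helper83.EQ.EvenAlg

/-!
The polynomial `u (T(u)² - 4)` is squarefree, if the critical values of `T(x²)` are not `± 2`.
-/

set_option autoImplicit false

namespace Pool.Agent.V5helper83.EQ

open Polynomial

/-- Separability from the common roots over `ℂ`. -/
theorem squarefree_of {K : Type*} [Field K] (s : K →+* ℂ) {p : K[X]}
    (h : ∀ a : ℂ, (p.map s).eval a = 0 → (derivative (p.map s)).eval a ≠ 0) : Squarefree p := by
  have h1 : (p.map s).Separable := by
    rw [Polynomial.Separable, Polynomial.isCoprime_iff_aeval_ne_zero_of_isAlgClosed ℂ ℂ]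
    intro a
    rw [Polynomial.coe_aeval_eq_eval]
    by_cases h0 : (p.map s).eval a = 0
    · exact Or.inr (h a h0)
    · exact Or.inl h0
  exact ((Polynomial.separable_map s).1 h1).squarefree

theorem ne_four_of {v : ℂ} {r : ℝ} (hr : 4 ≤ r) (h : r < ‖v - 2‖ + ‖v + 2‖) : v ^ 2 ≠ 4 := by
  intro h0
  have h1 : (v - 2) * (v + 2) = 0 := by linear_combination h0
  rcases mul_eq_zero.1 h1 with h2 | h2
  · have h3 : v + 2 = 4 := by linear_combination h2
    rw [h2, h3, norm_zero, zero_add] at h
    have h4 : ‖(4 : ℂ)‖ = 4 := by norm_num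
    linarith
  · have h3 : v - 2 = -4 := by linear_combination h2
    rw [h2, h3, norm_zero, add_zero, norm_neg] at h
    have h4 : ‖(4 : ℂ)‖ = 4 := by norm_num
    linarith

theorem four_le : 4 ≤ 3 * √2 := by
  have h : (1.4 : ℝ) ≤ √2 := Real.le_sqrt_of_sq_le (by norm_num)
  linarith

end Pool.Agent.V5helper83.EQ

namespace Pool.Agent.V5helper83.EQ.Even

open Polynomial

open Pool.Agent.V5helper83.EQ

variable {K : Type*} [Field K]

theorem squarefree_D (s : K →+* ℂ) {T : K[X]}
    (hc : ∀ x : ℂ, (derivative ((T.map s).comp (X ^ 2))).eval x = 0 →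
      ((T.map s).comp (X ^ 2)).eval x ^ 2 ≠ 4) : Squarefree (D T) := by
  obtain ⟨P, hP⟩ : ∃ P : ℂ[X], P = T.map s := ⟨_, rfl⟩
  rw [← hP] at hc
  have hF : ∀ y : ℂ, (P.comp (X ^ 2)).eval y = P.eval (y ^ 2) := fun y => by
    rw [eval_comp, eval_pow, eval_X]
  have hF' : ∀ y : ℂ, (derivative (P.comp (X ^ 2))).eval y = 2 * y * (derivative P).eval (y ^ 2) :=
    fun y => by
      rw [derivative_comp, derivative_X_pow, eval_mul, eval_comp, eval_pow, eval_X]
      simp
  have hD : (D T).map s = X * (P ^ 2 - C 4) := by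
    unfold D
    rw [Polynomial.map_mul, map_X, Polynomial.map_sub, Polynomial.map_pow, map_C, hP, map_ofNat]
  refine squarefree_of s fun a ha => ?_
  rw [hD] at ha ⊢
  have h1 : (derivative (X * (P ^ 2 - C 4))).eval a =
      (P.eval a ^ 2 - 4) + a * (2 * P.eval a * (derivative P).eval a) := by
    rw [derivative_mul, derivative_X, derivative_sub, derivative_pow, derivative_C]
    simp
  rw [h1]
  intro h2
  rw [eval_mul, eval_X, eval_sub, eval_pow, eval_C] at ha
  rcases mul_eq_zero.1 ha with h3 | h3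
  · rw [h3, zero_mul, add_zero, sub_eq_zero] at h2
    refine hc 0 ?_ ?_
    · rw [hF', mul_zero, zero_mul]
    · rw [hF, zero_pow two_ne_zero]
      exact h2
  · have h4 : P.eval a ≠ 0 := by
      intro h5
      rw [h5] at h3
      norm_num at h3
    have h0 : a ≠ 0 := by
      intro h5
      refine hc 0 ?_ ?_
      · rw [hF', mul_zero, zero_mul]
      · rw [hF, zero_pow two_ne_zero, ← h5]
        exact sub_eq_zero.1 h3
    rw [h3, zero_add] at h2
    have h5 : (derivative P).eval a = 0 := by
      rcases mul_eq_zero.1 h2 with h6 | h6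
      · exact absurd h6 h0
      · rcases mul_eq_zero.1 h6 with h7 | h7
        · exact absurd h7 (mul_ne_zero two_ne_zero h4)
        · exact h7
    obtain ⟨y, hy⟩ := IsAlgClosed.exists_pow_nat_eq a (n := 2) (by norm_num)
    refine hc y ?_ ?_
    · rw [hF', hy, h5, mul_zero]
    · rw [hF, hy]
      exact sub_eq_zero.1 h3

end Pool.Agent.V5helper83.EQ.Even
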