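import Pool.Agent.V5helper88.TQ.Crit

/-!
Loops on `z + 1/z = T(x²)`: the points `b_i²` on the different arcs of `T ⁻¹ [-2, 2]`.
-/

set_option autoImplicit false

namespace Pool.Agent.V5helper83.EQ.Even

open Polynomial

open Pool.Agent.Y775.CC

open Pool.Agent.N686.EL

open Pool.Agent.V5helper88.TQ

open Pool.Agent.V5helper83.EQ

/-- Points on the same component of `F ⁻¹ [-2, 2]`, `F = T(x²)`, have squares on the same component
of `T ⁻¹ [-2, 2]`. -/
theorem comp_sq {T : ℂ[X]} {x y : ℂ} (hx : x ∈ {x : ℂ | ∃ t : ℝ, |t| ≤ 2 ∧ (T.comp (X ^ 2)).eval x = t})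
    (hy : y ∈ {x : ℂ | ∃ t : ℝ, |t| ≤ 2 ∧ (T.comp (X ^ 2)).eval x = t})
    (h : connectedComponentIn {x : ℂ | ∃ t : ℝ, |t| ≤ 2 ∧ (T.comp (X ^ 2)).eval x = t} x =
      connectedComponentIn {x : ℂ | ∃ t : ℝ, |t| ≤ 2 ∧ (T.comp (X ^ 2)).eval x = t} y) :
    connectedComponentIn {u : ℂ | ∃ t : ℝ, |t| ≤ 2 ∧ T.eval u = t} (x ^ 2) =
      connectedComponentIn {u : ℂ | ∃ t : ℝ, |t| ≤ 2 ∧ T.eval u = t} (y ^ 2) := by
  obtain ⟨U, hU⟩ : ∃ U : Set ℂ, U =
    connectedComponentIn {x : ℂ | ∃ t : ℝ, |t| ≤ 2 ∧ (T.comp (X ^ 2)).eval x = t} x := ⟨_, rfl⟩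
  have hxU : x ∈ U := by
    rw [hU]
    exact mem_connectedComponentIn hx
  have hyU : y ∈ U := by
    rw [hU, h]
    exact mem_connectedComponentIn hy
  have hUc : IsPreconnected ((fun x : ℂ => x ^ 2) '' U) := by
    refine IsPreconnected.image ?_ _ (continuous_pow 2).continuousOn
    rw [hU]
    exact isPreconnected_connectedComponentIn
  have hUS : (fun x : ℂ => x ^ 2) '' U ⊆ {u : ℂ | ∃ t : ℝ, |t| ≤ 2 ∧ T.eval u = t} := by
    rintro _ ⟨w, hw, rfl⟩
    rw [hU] at hw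
    obtain ⟨t, ht, h1⟩ := connectedComponentIn_subset _ _ hw
    refine ⟨t, ht, ?_⟩
    rw [eval_comp, eval_pow, eval_X] at h1
    exact h1
  have h1 := hUc.subset_connectedComponentIn (x := x ^ 2) ⟨x, hxU, rfl⟩ hUS
  exact connectedComponentIn_eq (h1 ⟨y, hyU, rfl⟩)

/-- **The criterion for arbitrary special points.** -/
theorem loops_two {h : ℕ} {T : ℂ[X]} (hdeg : T.natDegree = h)
    (hcrit : ∀ x : ℂ, (derivative (T.comp (X ^ 2))).eval x = 0 →
      5 < ‖(T.comp (X ^ 2)).eval x - 2‖ + ‖(T.comp (X ^ 2)).eval x + 2‖) {b : Fin h → ℂ}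
    (h1 : ∀ i, ∃ ζ : ℂ, ‖ζ‖ = 1 ∧ T.eval (b i ^ 2) = ζ + ζ⁻¹) (h0 : ∀ i, b i ≠ 0)
    (hinj : Function.Injective fun i =>
      connectedComponentIn {u : ℂ | ∃ t : ℝ, |t| ≤ 2 ∧ T.eval u = t} (b i ^ 2)) :
    HasLoops (T.comp (X ^ 2)) b := by
  rcases Nat.eq_zero_or_pos h with rfl | hpos
  · exact hasLoops_zero b
  obtain ⟨g, hg⟩ : ∃ g, g + 1 = h + h := ⟨h + h - 1, by omega⟩
  have hdegF : (T.comp (X ^ 2)).natDegree = g + 1 := by
    rw [natDegree_comp, hdeg, natDegree_X_pow]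
    omega
  obtain ⟨μ, G, V, φ, hμ, hG, H, hV⟩ := exists_branches_ellipse (P := T.comp (X ^ 2)) (n := g + 1)
    (Nat.succ_pos g) hdegF (q := 2) one_lt_two fun x hx => by
      have h1 := hcrit x hx
      norm_num at h1 ⊢
      exact h1
  have hθ : ∀ i, ∃ θ : ℝ, T.eval (b i ^ 2) = uu 1 θ := by
    intro i
    obtain ⟨ζ, h1, h2⟩ := h1 i
    obtain ⟨θ, h3⟩ := exists_circ h1
    refine ⟨θ, ?_⟩
    rw [h2, ← h3]
    rfl
  choose θ hθ using hθ
  have hF : ∀ y : ℂ, (T.comp (X ^ 2)).eval y = T.eval (y ^ 2) := fun y => by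
    rw [eval_comp, eval_pow, eval_X]
  have hpl : ∀ i, (T.comp (X ^ 2)).eval (b i) = uu 1 (θ i) := fun i => by rw [hF, hθ]
  have hpr : ∀ i, (T.comp (X ^ 2)).eval (-b i) = uu 1 (θ i) := fun i => by rw [hF, neg_sq, hθ]
  choose βl hβl using fun i => exists_branch' H hμ hG (hpl i)
  choose βr hβr using fun i => exists_branch' H hμ hG (hpr i)
  have hmem : ∀ (y : ℂ) (a : ℝ), (T.comp (X ^ 2)).eval y = uu 1 a →
      y ∈ {x : ℂ | ∃ t : ℝ, |t| ≤ 2 ∧ (T.comp (X ^ 2)).eval x = t} := fun y a hy =>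
    ⟨2 * Real.cos (2 * Real.pi * a), abs_cos_le a, by rw [hy, uu_one]⟩
  -- points on the same branch belong to the same index
  have key : ∀ (y y' : ℂ) (i i' : Fin h) (j : Fin (g + 1)), y ^ 2 = b i ^ 2 → y' ^ 2 = b i' ^ 2 →
      y = μ * φ j (uu 1 (θ i)) → y' = μ * φ j (uu 1 (θ i')) → i = i' := by
    intro y y' i i' j hy hy' e e'
    apply hinj
    simp only
    rw [← hy, ← hy']
    refine comp_sq (hmem y (θ i) (by rw [hF, hy, hθ])) (hmem y' (θ i') (by rw [hF, hy', hθ])) ?_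
    rw [e, e']
    exact comp_eq' H hG _ _ _
  have hll : Function.Injective βl := fun i i' hi =>
    key _ _ i i' (βl i) rfl rfl (hβl i) (by rw [hi]; exact hβl i')
  have hrr : Function.Injective βr := fun i i' hi =>
    key _ _ i i' (βr i) (neg_sq _) (neg_sq _) (hβr i) (by rw [hi]; exact hβr i')
  have hlr : ∀ i i', βl i ≠ βr i' := by
    intro i i' hi
    have h2 := key _ _ i i' (βl i) rfl (neg_sq _) (hβl i) (by rw [hi]; exact hβr i')
    rw [← h2] at hi
    have h3 := hβr i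
    rw [← hi, ← hβl i] at h3
    exact h0 i (self_eq_neg.1 h3.symm)
  have hap : Function.Injective (Fin.append βl βr) :=
    Fin.append_injective_iff.2 ⟨hll, hrr, hlr⟩
  refine hasLoops_of_angles H hμ hG one_lt_two hV one_pos (by norm_num)
    (fun m => pe b (Fin.cast hg m)) (fun m => Fin.append θ θ (Fin.cast hg m))
    (fun m k hk => absurd (one_dvd k) hk)
    (β := fun m => Fin.append βl βr (Fin.cast hg m)) (hap.comp (Fin.cast_injective hg))
    (fun m => ?_)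
    (fun i => Fin.cast hg.symm (Fin.castAdd h i)) (fun i => Fin.cast hg.symm (Fin.natAdd h i))
    ((Fin.cast_injective hg.symm).comp (Fin.castAdd_injective h h)) (fun i j hij => ?_)
    (fun i => ?_) fun i => ?_
  · have h2 : ∀ m : Fin (h + h), pe b m = μ * φ (Fin.append βl βr m)
        (uu 1 (Fin.append θ θ m)) := by
      intro m
      induction m using Fin.addCases with
      | left i => rw [pe_left, Fin.append_left, Fin.append_left, ← hβl i]
      | right i => rw [pe_right, Fin.append_right, Fin.append_right, ← hβr i]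
    exact h2 _
  · have h3 := congrArg Fin.val hij
    simp only [Fin.val_cast, Fin.val_castAdd, Fin.val_natAdd] at h3
    have := i.2
    omega
  · exact pe_left i
  · exact pe_right i

end Pool.Agent.V5helper83.EQ.Even
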