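import Pool.Agent.TH826.UH.Ring

/-!
The transferred symbols are unramified at all discrete valuations.
-/

set_option autoImplicit false

namespace Pool.Agent.V5helper83.EQ

open Polynomial

open scoped WithZero

open Pool.Agent.TH826.MK (KQ symb symb_update_mul symb_update_zpow symb_eq_zero' unitPart Unramified
  mem_unitPart_of_oneUnit' mem_unitPart_of_pow)

section symbols

variable {R : Type*} [CommRing R]

theorem up0 {α : Type*} (x y x' : α) : Function.update ![x, y] 0 x' = ![x', y] := by
  funext i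
  fin_cases i <;> rfl

theorem up1 {α : Type*} (x y y' : α) : Function.update ![x, y] 1 y' = ![x, y'] := by
  funext i
  fin_cases i <;> rfl

theorem sy_mul (a x y : Rˣ) : symb ![a, x * y] = symb ![a, x] + symb ![a, y] := by
  have h := symb_update_mul ![a, 1] 1 x y
  rwa [up1, up1, up1] at h

theorem sy_mul_left (a x y : Rˣ) : symb ![x * y, a] = symb ![x, a] + symb ![y, a] := by
  have h := symb_update_mul ![1, a] 0 x y
  rwa [up0, up0, up0] at h

theorem sy_one (a : Rˣ) : symb ![a, 1] = 0 := by
  have h := sy_mul a 1 1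
  rw [mul_one] at h
  exact left_eq_add.1 h

theorem sy_one_left (a : Rˣ) : symb ![1, a] = 0 := by
  have h := sy_mul_left a 1 1
  rw [mul_one] at h
  exact left_eq_add.1 h

theorem half_zero {x : KQ R 2} (h : x + x = 0) : x = 0 := by
  have h1 : (2 : ℚ) • x = 0 := by
    rw [two_smul, h]
  exact (smul_eq_zero.1 h1).resolve_left (by norm_num)

theorem sy_neg_one (a : Rˣ) : symb ![a, -1] = 0 := by
  apply half_zero
  rw [← sy_mul, neg_mul_neg, one_mul, sy_one]

theorem sy_neg_one_left (a : Rˣ) : symb ![-1, a] = 0 := by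
  apply half_zero
  rw [← sy_mul_left, neg_mul_neg, one_mul, sy_one_left]

theorem sy_neg_left (a x : Rˣ) : symb ![-x, a] = symb ![x, a] := by
  have h := sy_mul_left a (-1) x
  rwa [neg_one_mul, sy_neg_one_left, zero_add] at h

theorem sy_neg (a x : Rˣ) : symb ![a, -x] = symb ![a, x] := by
  have h := sy_mul a (-1) x
  rwa [neg_one_mul, sy_neg_one, zero_add] at h

theorem sy_st {x y : Rˣ} (h : (x : R) + (y : R) = 1) : symb ![x, y] = 0 :=
  symb_eq_zero' _ (i := 0) (j := 1) (by decide) h

/-- `{x, 1 + x} = 0` -/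
theorem sy_succ {x y : Rˣ} (h : (y : R) = x + 1) : symb ![x, y] = 0 := by
  rw [← sy_neg_left]
  refine sy_st ?_
  rw [Units.val_neg, h]
  ring

end symbols

section field

variable {M : Type*} [Field M]

theorem sy_inv_left (a x : Mˣ) : symb ![x⁻¹, a] = -symb ![x, a] := by
  have h := sy_mul_left a x x⁻¹
  rw [mul_inv_cancel, sy_one_left] at h
  exact (neg_eq_of_add_eq_zero_right h.symm).symm

theorem sy_self (a : Mˣ) : symb ![a, a] = 0 := by
  by_cases h1 : (a : M) = 1
  · have h2 : a = 1 := Units.ext h1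
    rw [h2, sy_one]
  · have hb0 : (1 : M) - a ≠ 0 := sub_ne_zero.2 (Ne.symm h1)
    have hc0 : (1 : M) - (a : M)⁻¹ ≠ 0 := by
      intro h
      apply h1
      rw [sub_eq_zero] at h
      rw [← inv_inv (a : M), ← h, inv_one]
    obtain ⟨b, hb⟩ : ∃ b : Mˣ, (b : M) = 1 - a := ⟨Units.mk0 _ hb0, rfl⟩
    obtain ⟨c, hc⟩ : ∃ c : Mˣ, (c : M) = 1 - (a : M)⁻¹ := ⟨Units.mk0 _ hc0, rfl⟩
    have h2 : symb ![a, b] = 0 := sy_st (by rw [hb]; ring)
    have h3 : symb ![a, c] = 0 := by
      have h4 : symb ![a⁻¹, c] = 0 := sy_st (by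
        rw [hc, Units.val_inv_eq_inv_val]
        ring)
      rw [sy_inv_left, neg_eq_zero] at h4
      exact h4
    have h5 : b = -a * c := by
      apply Units.ext
      rw [Units.val_mul, Units.val_neg, hb, hc]
      have := a.ne_zero
      field_simp
      ring
    rw [h5, sy_mul, h3, add_zero, sy_neg] at h2
    exact h2

variable {K : Type*} [Field K] (c : K →+* M) (v : Valuation M ℤᵐ⁰)

theorem val_int' {x : K} (hx : IsIntegral ℤ x) : v (c x) ≤ 1 :=
  Pool.Agent.TH826.MK.val_le_one_of_integral v (map_isIntegral_int _ hx)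

theorem val_eval' {T : K[X]} (hT : ∀ i, IsIntegral ℤ (T.coeff i)) {x : M} (hx : v x ≤ 1) :
    v (T.eval₂ c x) ≤ 1 := by
  rw [Polynomial.eval₂_eq_sum_range]
  refine Valuation.map_sum_le v fun i _ => ?_
  rw [map_mul, map_pow]
  exact mul_le_one' (val_int' c v (hT i)) (pow_le_one' hx _)

theorem val_sub' {T : K[X]} (hT : ∀ i, IsIntegral ℤ (T.coeff i)) {x : M} (hx : v x ≤ 1) {β : K}
    (hβ : IsIntegral ℤ β) (h : v (x - c β) < 1) :
    v (T.eval₂ c x - c (T.eval β)) < 1 := by
  have h1 : c (T.eval β) = T.eval₂ c (c β) := by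
    rw [Polynomial.eval₂_hom]
  rw [h1, Polynomial.eval₂_eq_sum_range, Polynomial.eval₂_eq_sum_range,
    ← Finset.sum_sub_distrib]
  refine (Valuation.map_sum_le v (g := v (x - c β)) fun i _ => ?_).trans_lt h
  have h2 : c (T.coeff i) * x ^ i - c (T.coeff i) * c β ^ i =
      c (T.coeff i) * ((x - c β) *
        ∑ j ∈ Finset.range i, x ^ j * c β ^ (i - 1 - j)) := by
    rw [(Commute.all x (c β)).mul_geom_sum₂ i]
    ring
  rw [h2, map_mul, map_mul]
  have h3 : v (∑ j ∈ Finset.range i, x ^ j * c β ^ (i - 1 - j)) ≤ 1 := by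
    refine Valuation.map_sum_le v fun j _ => ?_
    rw [map_mul, map_pow, map_pow]
    exact mul_le_one' (pow_le_one' hx _) (pow_le_one' (val_int' c v hβ) _)
  calc v (c (T.coeff i)) * (v (x - c β) * v (∑ j ∈ Finset.range i,
        x ^ j * c β ^ (i - 1 - j))) ≤ 1 * (v (x - c β) * 1) :=
        mul_le_mul' (val_int' c v (hT i)) (mul_le_mul' le_rfl h3)
    _ = v (x - c β) := by rw [mul_one, one_mul]

/-- **The symbols are unramified.** Here `w² = u (T + 2) / (T - 2)`, `f = (w + b) / (w - b)` and
`g = f² - T f + 1`. -/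
theorem mem_unitPart (s : K →+* ℂ) {T : K[X]} (hT : ∀ i, IsIntegral ℤ (T.coeff i)) {b : K}
    (hb : IsIntegral ℤ b)
    (hκ : ∃ (ζ : ℂ) (k : ℕ), k ≠ 0 ∧ ζ ^ k = 1 ∧ s (T.eval (b ^ 2)) = ζ + ζ⁻¹)
    {u w : M} (hw0 : w ≠ 0) (h2 : (2 : M) ≠ 0)
    (h1 : (T.eval₂ c u - 2) * (w ^ 2 - u) = 4 * u)
    (h1' : (T.eval₂ c u + 2) * (w ^ 2 - u) = 4 * w ^ 2) (hwb : w - c b ≠ 0)
    (hub : c b ^ 2 - u ≠ 0) {F G : Mˣ}
    (hF : (F : M) = (w + c b) / (w - c b)) (hG : (G : M) = F ^ 2 - T.eval₂ c u * F + 1) :
    symb ![F, G] ∈ unitPart v 2 := by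
  have hv2 : v (2 : M) ≤ 1 := by
    have h := val_int' c v (x := 2) (by
      have h3 := isIntegral_algebraMap (R := ℤ) (A := K) (x := 2)
      rwa [map_ofNat] at h3)
    rwa [map_ofNat] at h
  have hvb : v (c b) ≤ 1 := val_int' c v hb
  set β : M := c b with hβ
  set τ : M := T.eval₂ c u with hτ
  have hF0 : (F : M) ≠ 0 := F.ne_zero
  have hwu : w ^ 2 - u ≠ 0 := by
    intro h
    rw [h, mul_zero] at h1'
    have h4 : (4 : M) = 2 * 2 := by norm_num
    rw [h4] at h1'
    exact (mul_ne_zero (mul_ne_zero h2 h2) (pow_ne_zero 2 hw0)) h1'.symm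
  have e1 : (F : M) - 1 = 2 * β / (w - β) := by
    rw [hF]
    field_simp
    ring
  have e2 : (F : M) + 1 = 2 * w / (w - β) := by
    rw [hF]
    field_simp
    ring
  have e3 : (G : M) * ((w - β) ^ 2 * (w ^ 2 - u)) = 4 * w ^ 2 * (β ^ 2 - u) := by
    have h3 : (G : M) * (w - β) ^ 2 = 2 * (w ^ 2 + β ^ 2) - τ * (w ^ 2 - β ^ 2) := by
      rw [hG, hF]
      field_simp
      ring
    have h4 : τ * (w ^ 2 - u) = 2 * (w ^ 2 + u) :=
      mul_left_cancel₀ h2 (by linear_combination h1 + h1')
    calc (G : M) * ((w - β) ^ 2 * (w ^ 2 - u)) = (G * (w - β) ^ 2) * (w ^ 2 - u) := by ring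
      _ = 2 * (w ^ 2 + β ^ 2) * (w ^ 2 - u) - (τ * (w ^ 2 - u)) * (w ^ 2 - β ^ 2) := by
        rw [h3]
        ring
      _ = 4 * w ^ 2 * (β ^ 2 - u) := by
        rw [h4]
        ring
  have hF1 : (F : M) + 1 ≠ 0 := by
    rw [e2]
    exact div_ne_zero (mul_ne_zero h2 hw0) hwb
  rcases lt_or_ge 1 (v u) with hu | hu
  · rcases lt_or_ge 1 (v w) with hw | hw
    · -- `F` is a one-unit
      refine mem_unitPart_of_oneUnit' v 0 _ ?_
      show v ((F : M) - 1) < 1
      rw [e1, map_div₀, map_mul]
      have h3 : v (w - β) = v w := Valuation.map_sub_eq_of_lt_left v (hvb.trans_lt hw)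
      rw [h3, div_lt_one₀ (zero_lt_one.trans hw)]
      exact (mul_le_one' hv2 hvb).trans_lt hw
    · -- `(β² - u) / (w² - u)` is a one-unit
      obtain ⟨E, hE⟩ : ∃ E : Mˣ, (E : M) = F + 1 := ⟨Units.mk0 _ hF1, rfl⟩
      obtain ⟨H, hH⟩ : ∃ H : Mˣ, (H : M) = (β ^ 2 - u) / (w ^ 2 - u) :=
        ⟨Units.mk0 _ (div_ne_zero hub hwu), rfl⟩
      have e4 : G = H * (E * E) := by
        apply Units.ext
        rw [Units.val_mul, Units.val_mul, hE, hH, e2]
        rw [div_mul_div_comm, div_mul_div_comm, eq_div_iff (mul_ne_zero hwu (mul_ne_zero hwb hwb))]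
        linear_combination e3
      rw [e4, sy_mul, sy_mul, sy_succ hE, add_zero, add_zero]
      refine mem_unitPart_of_oneUnit' v 1 _ ?_
      show v ((H : M) - 1) < 1
      have e5 : (H : M) - 1 = (β ^ 2 - w ^ 2) / (w ^ 2 - u) := by
        rw [hH]
        field_simp
        ring
      rw [e5, map_div₀]
      have hw2 : v (w ^ 2) ≤ 1 := by
        rw [map_pow]
        exact pow_le_one' hw _
      have hb2 : v (β ^ 2) ≤ 1 := by
        rw [map_pow]
        exact pow_le_one' hvb _
      have h3 : v (w ^ 2 - u) = v u := by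
        rw [Valuation.map_sub_swap]
        exact Valuation.map_sub_eq_of_lt_left v (hw2.trans_lt hu)
      rw [h3, div_lt_one₀ (zero_lt_one.trans hu)]
      exact ((v.map_sub _ _).trans (max_le hb2 hw2)).trans_lt hu
  · have hvτ : v τ ≤ 1 := val_eval' c v hT hu
    rcases lt_trichotomy (v (F : M)) 1 with hf | hf | hf
    · refine mem_unitPart_of_oneUnit' v 1 _ ?_
      show v ((G : M) - 1) < 1
      have e6 : (G : M) - 1 = F * (F - τ) := by
        rw [hG]
        ring
      rw [e6, map_mul]
      exact mul_lt_one_of_lt_of_le hf ((v.map_sub _ _).trans (max_le hf.le hvτ))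
    · by_cases hg : v (G : M) = 1
      · refine Submodule.subset_span ⟨_, fun i => ?_, rfl⟩
        fin_cases i
        · exact hf
        · exact hg
      · have hgle : v (G : M) ≤ 1 := by
          rw [hG]
          refine (v.map_add _ _).trans (max_le ?_ (by rw [map_one]))
          refine (v.map_sub _ _).trans (max_le ?_ ?_)
          · rw [map_pow, hf, one_pow]
          · rw [map_mul, hf, mul_one]
            exact hvτ
        have hglt : v (G : M) < 1 := lt_of_le_of_ne hgle hg
        rcases lt_or_ge (v (u - c (b ^ 2))) 1 with hub1 | hub1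
        · -- `u` is congruent to `b²`
          obtain ⟨ζ, k, hk, hζ, ht⟩ := hκ
          have h3 := val_sub' c v hT hu (hb.pow 2) hub1
          rw [← hτ] at h3
          have htv : v (c (T.eval (b ^ 2))) ≤ 1 := by
            have h4 : c (T.eval (b ^ 2)) = τ - (τ - c (T.eval (b ^ 2))) := by ring
            rw [h4]
            exact (v.map_sub _ _).trans (max_le hvτ h3.le)
          have h5 : v ((F : M) ^ 2 - c (T.eval (b ^ 2)) * F + 1) < 1 := by
            have h6 : (F : M) ^ 2 - c (T.eval (b ^ 2)) * F + 1 =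
                G + (τ - c (T.eval (b ^ 2))) * F := by
              rw [hG]
              ring
            rw [h6]
            refine (v.map_add _ _).trans_lt (max_lt hglt ?_)
            rw [map_mul, hf, mul_one]
            exact h3
          exact mem_unitPart_of_pow v 0 _ hk
            (Pool.Agent.TH826.UH.val_pow_sub_one_lt s c v hk hζ ht htv hf.le h5)
        · -- `F` is congruent to `1` or `-1`
          refine mem_unitPart_of_pow v 0 _ (m := 2) two_ne_zero ?_
          show v ((F : M) ^ 2 - 1) < 1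
          by_contra hcon
          rw [not_lt] at hcon
          have h3 : v ((F : M) ^ 2 - 1) = v ((F : M) - 1) * v ((F : M) + 1) := by
            rw [← map_mul]
            congr 1
            ring
          have h4 : v ((F : M) - 1) ≤ 1 := (v.map_sub _ _).trans (max_le hf.le (by rw [map_one]))
          have h5 : v ((F : M) + 1) ≤ 1 := (v.map_add _ _).trans (max_le hf.le (by rw [map_one]))
          have h6 : v ((F : M) - 1) = 1 := by
            refine le_antisymm h4 ?_
            by_contra hlt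
            rw [not_le] at hlt
            rw [h3] at hcon
            exact absurd (mul_lt_one_of_lt_of_le hlt h5) (not_lt.2 hcon)
          have h7 : v ((F : M) + 1) = 1 := by
            refine le_antisymm h5 ?_
            by_contra hlt
            rw [not_le] at hlt
            rw [h3] at hcon
            rw [mul_comm] at hcon
            exact absurd (mul_lt_one_of_lt_of_le hlt h4) (not_lt.2 hcon)
          have hvwb : v (w - β) ≠ 0 := (Valuation.ne_zero_iff v).2 hwb
          have hv20 : v (2 : M) ≠ 0 := (Valuation.ne_zero_iff v).2 h2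
          have h8 : v 2 * v β = v (w - β) := by
            rw [e1, map_div₀, map_mul, div_eq_one_iff_eq hvwb] at h6
            exact h6
          have h9 : v 2 * v w = v (w - β) := by
            rw [e2, map_div₀, map_mul, div_eq_one_iff_eq hvwb] at h7
            exact h7
          have h10 : v w = v β := mul_left_cancel₀ hv20 (h9.trans h8.symm)
          have hvw0 : v w ≠ 0 := (Valuation.ne_zero_iff v).2 hw0
          have h11 := congrArg v e3
          have h4' : (4 : M) = 2 * 2 := by norm_num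
          rw [map_mul, map_mul, map_pow, ← h9, map_mul, map_mul, h4', map_mul, map_pow] at h11
          have h12 : v (G : M) * v (w ^ 2 - u) = v (β ^ 2 - u) := by
            have h13 : (v 2 * v w) ^ 2 ≠ 0 := pow_ne_zero 2 (mul_ne_zero hv20 hvw0)
            refine mul_left_cancel₀ h13 ?_
            calc (v 2 * v w) ^ 2 * (v (G : M) * v (w ^ 2 - u)) =
                v (G : M) * ((v 2 * v w) ^ 2 * v (w ^ 2 - u)) := mul_left_comm _ _ _
              _ = v 2 * v 2 * v w ^ 2 * v (β ^ 2 - u) := h11
              _ = (v 2 * v w) ^ 2 * v (β ^ 2 - u) := by rw [mul_pow, pow_two (v 2)]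
          have h14 : v (w ^ 2 - u) ≤ 1 := by
            refine (v.map_sub _ _).trans (max_le ?_ hu)
            rw [map_pow, h10]
            exact pow_le_one' hvb _
          have h15 : 1 ≤ v (β ^ 2 - u) := by
            rw [Valuation.map_sub_swap]
            have h16 : u - β ^ 2 = u - c (b ^ 2) := by rw [map_pow]
            rw [h16]
            exact hub1
          rw [← h12] at h15
          exact absurd (mul_lt_one_of_lt_of_le hglt h14) (not_lt.2 h15)
    · -- `F` has a pole
      obtain ⟨H, hH⟩ : ∃ H : Mˣ, H = (F * F)⁻¹ * G := ⟨_, rfl⟩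
      have e4 : G = F * F * H := by rw [hH, mul_inv_cancel_left]
      rw [e4, sy_mul, sy_mul, sy_self, add_zero, zero_add]
      refine mem_unitPart_of_oneUnit' v 1 _ ?_
      show v ((H : M) - 1) < 1
      have e5 : (H : M) - 1 = (F : M)⁻¹ * ((F : M)⁻¹ - τ) := by
        have h3 : (H : M) = ((F : M) * F)⁻¹ * G := by
          rw [hH, Units.val_mul, Units.val_inv_eq_inv_val, Units.val_mul]
        rw [h3, hG]
        field_simp
        ring
      have hfi : v (F : M)⁻¹ < 1 := by
        rw [map_inv₀]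
        exact inv_lt_one_of_one_lt₀ hf
      rw [e5, map_mul]
      exact mul_lt_one_of_lt_of_le hfi ((v.map_sub _ _).trans (max_le hfi.le hvτ))

end field

end Pool.Agent.V5helper83.EQ
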