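import Pool.Agent.V5helper83.EQ.Tor
import Pool.Agent.V5helper83.EQ.Unr

/-!
The curves `v² = u (T(u)² - 4)`, the quotients of the curves `z + 1/z = T(x²)` by
`(x, z) ↦ (-x, 1/z)`, and their symbols.
-/

set_option autoImplicit false

namespace Pool.Agent.V5helper83.EQ.Even

open Polynomial

open Pool.Agent.TH826.MK (Torus symb KQ Unramified)

open Pool.Agent.V5helper83.EQ

variable {K : Type*} [Field K] {h : ℕ}

/-- The polynomial `D(u) = u (T(u)² - 4)`; the curve is `v² = D(u)`. -/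
noncomputable def D (T : K[X]) : K[X] := X * (T ^ 2 - C 4)

/-- The function `u (T + 2) - b² (T - 2)`. -/
noncomputable def extra (T : K[X]) (b : K) : K[X] := X * (T + C 2) - C (b ^ 2) * (T - C 2)

/-- The open part of the curve is given by `v ≠ 0` and by the polynomial
`δ(u) = ∏ (u - b_i²) (u (T + 2) - b_i² (T - 2))`. -/
noncomputable def delta (T : K[X]) (b : Fin h → K) : K[X] :=
  ∏ i, (X - C (b i ^ 2)) * extra T (b i)

/-- The regular functions on the open part. -/
abbrev Ring (T : K[X]) (b : Fin h → K) : Type _ := COpen (D T) (delta T b)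

/-- The function `(T + 2) u + b v`. -/
noncomputable def num (T : K[X]) (b : Fin h → K) (y : K) : Ring T b :=
  opol (D T) (delta T b) (X * (T + C 2)) + opol (D T) (delta T b) (C y) * ov (D T) (delta T b)

theorem isUnit_XT (T : K[X]) (b : Fin h → K) :
    IsUnit (opol (D T) (delta T b) (X * (T + C 2))) := by
  refine isUnit_opol_D ⟨T - C 2, ?_⟩
  unfold D
  have h4 : (C 4 : K[X]) = C 2 * C 2 := by rw [← C_mul]; norm_num
  rw [h4]
  ring

theorem isUnit_TT (T : K[X]) (b : Fin h → K) :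
    IsUnit (opol (D T) (delta T b) ((T + C 2) * (T - C 2))) := by
  refine isUnit_opol_D ⟨X, ?_⟩
  unfold D
  have h4 : (C 4 : K[X]) = C 2 * C 2 := by rw [← C_mul]; norm_num
  rw [h4]
  ring

theorem isUnit_extra (T : K[X]) (b : Fin h → K) (i : Fin h) :
    IsUnit (opol (D T) (delta T b) (extra T (b i))) :=
  isUnit_opol ((Dvd.intro_left _ rfl).trans (Finset.dvd_prod_of_mem _ (Finset.mem_univ i)))

theorem isUnit_sub (T : K[X]) (b : Fin h → K) (i : Fin h) :
    IsUnit (opol (D T) (delta T b) (X - C (b i ^ 2))) :=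
  isUnit_opol ((Dvd.intro _ rfl).trans (Finset.dvd_prod_of_mem _ (Finset.mem_univ i)))

theorem num_mul (T : K[X]) (b : Fin h → K) (y : K) :
    num T b y * num T b (-y) = opol (D T) (delta T b) (X * (T + C 2) * extra T y) := by
  have h1 : num T b y * num T b (-y) = opol (D T) (delta T b) (X * (T + C 2)) ^ 2 -
      opol (D T) (delta T b) (C y) ^ 2 * ov (D T) (delta T b) ^ 2 := by
    unfold num
    rw [C_neg, map_neg]
    ring
  rw [h1, ov_sq, ← map_pow, ← map_pow, ← map_mul, ← map_sub]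
  congr 1
  unfold D extra
  have h4 : (C 4 : K[X]) = C 2 * C 2 := by rw [← C_mul]; norm_num
  rw [h4, C_pow]
  ring

theorem isUnit_num (T : K[X]) (b : Fin h → K) (i : Fin h) : IsUnit (num T b (b i)) := by
  have h1 := (isUnit_XT T b).mul (isUnit_extra T b i)
  rw [← map_mul, ← num_mul] at h1
  exact isUnit_of_mul_isUnit_left h1

theorem isUnit_den (T : K[X]) (b : Fin h → K) (i : Fin h) : IsUnit (num T b (-b i)) := by
  have h1 := (isUnit_XT T b).mul (isUnit_extra T b i)
  rw [← map_mul, ← num_mul] at h1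
  exact isUnit_of_mul_isUnit_right h1

/-- The function `f_i = ((T + 2) u + b_i v) / ((T + 2) u - b_i v)`. -/
noncomputable def f (T : K[X]) (b : Fin h → K) (i : Fin h) : (Ring T b)ˣ :=
  (isUnit_num T b i).unit / (isUnit_den T b i).unit

theorem f_mul (T : K[X]) (b : Fin h → K) (i : Fin h) :
    (f T b i : Ring T b) * num T b (-b i) = num T b (b i) := by
  have h1 : f T b i * (isUnit_den T b i).unit = (isUnit_num T b i).unit := div_mul_cancel _ _
  have h2 := congrArg Units.val h1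
  rw [Units.val_mul, IsUnit.unit_spec, IsUnit.unit_spec] at h2
  exact h2

theorem g_mul (T : K[X]) (b : Fin h → K) (i : Fin h) :
    ((f T b i : Ring T b) ^ 2 - opol (D T) (delta T b) T * f T b i + 1) * num T b (-b i) ^ 2 =
      -(opol (D T) (delta T b) (X * (T + C 2)) *
        opol (D T) (delta T b) ((T + C 2) * (T - C 2)) *
        opol (D T) (delta T b) (X - C (b i ^ 2))) := by
  have h1 : ((f T b i : Ring T b) ^ 2 - opol (D T) (delta T b) T * f T b i + 1) *
      num T b (-b i) ^ 2 = num T b (b i) ^ 2 -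
        opol (D T) (delta T b) T * (num T b (b i) * num T b (-b i)) + num T b (-b i) ^ 2 := by
    rw [← f_mul]
    ring
  have h2 : num T b (b i) ^ 2 + num T b (-b i) ^ 2 =
      opol (D T) (delta T b) (C 2 * (X * (T + C 2)) ^ 2 + C 2 * (C (b i) ^ 2 * D T)) := by
    have h3 : num T b (b i) ^ 2 + num T b (-b i) ^ 2 =
        2 * opol (D T) (delta T b) (X * (T + C 2)) ^ 2 +
          2 * (opol (D T) (delta T b) (C (b i)) ^ 2 * ov (D T) (delta T b) ^ 2) := by
      unfold num
      rw [C_neg, map_neg]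
      ring
    have h5 : opol (D T) (delta T b) (C 2) = 2 := by
      have h6 : (C 2 : K[X]) = 2 := rfl
      rw [h6, map_ofNat]
    rw [h3, ov_sq]
    simp only [map_add, map_mul, map_pow, h5]
  rw [h1, sub_add_eq_add_sub, h2, num_mul, ← map_mul, ← map_sub, ← map_mul, ← map_mul, ← map_neg]
  congr 1
  unfold D extra
  have h4 : (C 4 : K[X]) = C 2 * C 2 := by rw [← C_mul]; norm_num
  have h22 : (C 2 : K[X]) = 2 := rfl
  rw [h4, C_pow, h22]
  ring

theorem isUnit_g (T : K[X]) (b : Fin h → K) (i : Fin h) :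
    IsUnit ((f T b i : Ring T b) ^ 2 - opol (D T) (delta T b) T * f T b i + 1) := by
  have h1 := (((isUnit_XT T b).mul (isUnit_TT T b)).mul (isUnit_sub T b i)).neg
  rw [← g_mul] at h1
  exact isUnit_of_mul_isUnit_left h1

/-- The function `g_i = f_i² - T f_i + 1`. -/
noncomputable def g (T : K[X]) (b : Fin h → K) (i : Fin h) : (Ring T b)ˣ := (isUnit_g T b i).unit

theorem g_val (T : K[X]) (b : Fin h → K) (i : Fin h) :
    (g T b i : Ring T b) = (f T b i : Ring T b) ^ 2 - opol (D T) (delta T b) T * f T b i + 1 :=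
  IsUnit.unit_spec _

theorem extra_ne {T : K[X]} (hT : 1 ≤ T.natDegree) (y : K) : extra T y ≠ 0 := by
  intro h0
  have h1 : (X - C (y ^ 2)) * T = -(C 2 * X + C (2 * y ^ 2)) := by
    have h2 : extra T y = (X - C (y ^ 2)) * T + (C 2 * X + C (2 * y ^ 2)) := by
      unfold extra
      rw [C_mul]
      ring
    rw [h2] at h0
    exact eq_neg_of_add_eq_zero_left h0
  have hT0 : T ≠ 0 := by
    rintro rfl
    simp at hT
  have h3 := congrArg natDegree h1
  rw [natDegree_mul (X_sub_C_ne_zero _) hT0, natDegree_X_sub_C, natDegree_neg] at h3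
  have h4 : (C 2 * X + C (2 * y ^ 2) : K[X]).natDegree ≤ 1 := natDegree_linear_le
  omega

theorem delta_ne {T : K[X]} (hT : 1 ≤ T.natDegree) (b : Fin h → K) : delta T b ≠ 0 :=
  Finset.prod_ne_zero_iff.2 fun _ _ => mul_ne_zero (X_sub_C_ne_zero _) (extra_ne hT _)

theorem natDegree_D {T : K[X]} (hT : 1 ≤ T.natDegree) : (D T).natDegree = 2 * T.natDegree + 1 := by
  have h1 : (T ^ 2 - C 4).natDegree = 2 * T.natDegree := by
    rw [natDegree_sub_C, natDegree_pow]
  have h2 : T ^ 2 - C 4 ≠ 0 := by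
    intro h0
    rw [h0, natDegree_zero] at h1
    omega
  unfold D
  rw [natDegree_mul X_ne_zero h2, natDegree_X, h1]
  ring

theorem D_ne {T : K[X]} (hT : 1 ≤ T.natDegree) : D T ≠ 0 := by
  intro h0
  have h1 := natDegree_D hT
  rw [h0, natDegree_zero] at h1
  omega

theorem isDomain {T : K[X]} (hT : 1 ≤ T.natDegree) : IsDomain (CRing (D T)) :=
  isDomain_CRing (by
    rw [natDegree_D hT]
    exact odd_two_mul_add_one _)

/-- The symbol `{f_i, f_i² - T f_i + 1}`. -/
noncomputable def sym (T : K[X]) (b : Fin h → K) (i : Fin h) : KQ (Ring T b) 2 :=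
  symb ![f T b i, g T b i]

/-- The symbols `{f_i, f_i² - T f_i + 1}` are unramified at all discrete valuations of the function
field `M` of the curve `v² = u (T(u)² - 4)`. -/
def UnramifiedSymbols.{u, w} {K : Type u} [Field K] {h : ℕ} (T : K[X]) (b : Fin h → K) : Prop :=
  ∀ (M : Type w) [Field M] [Algebra (CRing (D T)) M] [IsFractionRing (CRing (D T)) M],
    ∃ φ : Ring T b →+* M,
      (∀ a, φ (toOpen (D T) (delta T b) a) = algebraMap (CRing (D T)) M a) ∧
      ∀ i, KQ.map 2 φ (sym T b i) ∈ Unramified M 2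

/-- There are `h` loops in the complex points over `s` of the open part of the curve
`v² = u (T(u)² - 4)`, such that the determinant of the regulators on the loops of the `h` symbols
`{f_i, f_i² - T f_i + 1}` does not vanish. -/
def IndependentRegulators {K : Type*} [Field K] (s : K →+* ℂ) {h : ℕ} (T : K[X])
    (b : Fin h → K) : Prop :=
  ∃ Γ : Fin h → Torus (Ring T b) 1,
    (∀ l θ (y : K), (Γ l).e θ (opol (D T) (delta T b) (C y)) = s y) ∧
    (Matrix.of fun l i : Fin h => (Γ l).reg (sym T b i)).det ≠ 0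

theorem map_poly {K S : Type*} [Field K] [CommRing S] (ψ : K[X] →+* S) (p : K[X]) :
    ψ p = p.eval₂ (ψ.comp C) (ψ X) := by
  conv_lhs => rw [← Polynomial.eval₂_C_X (p := p)]
  rw [Polynomial.hom_eval₂]

theorem unramified.{u, w} {K : Type u} [Field K] [NumberField K] {h : ℕ} {T : K[X]}
    (hdeg : 1 ≤ T.natDegree) (hT : ∀ i, IsIntegral ℤ (T.coeff i)) {b : Fin h → K}
    (hb : ∀ i, IsIntegral ℤ (b i)) (s : K →+* ℂ)
    (hκ : ∀ i, ∃ (ζ : ℂ) (k : ℕ), k ≠ 0 ∧ ζ ^ k = 1 ∧ s (T.eval (b i ^ 2)) = ζ + ζ⁻¹) :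
    UnramifiedSymbols.{u, w} T b := by
  intro M _ _ _
  have hdom : IsDomain (CRing (D T)) := isDomain hdeg
  have hinj : Function.Injective (algebraMap (CRing (D T)) M) := IsFractionRing.injective _ _
  have hpol : ∀ p : K[X], p ≠ 0 → algebraMap (CRing (D T)) M (cpol (D T) p) ≠ 0 := by
    intro p hp h0
    apply hp
    apply cpol_injective (D T)
    apply hinj
    rw [h0, map_zero, map_zero]
  have hv0 : algebraMap (CRing (D T)) M (cv (D T)) ≠ 0 := by
    intro h0
    have h1 := congrArg (algebraMap (CRing (D T)) M) (cv_sq (D T))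
    rw [map_pow, h0, zero_pow two_ne_zero] at h1
    exact hpol _ (D_ne hdeg) h1.symm
  have hu : IsUnit (algebraMap (CRing (D T)) M (cv (D T) * cpol (D T) (delta T b))) := by
    rw [map_mul]
    exact (mul_ne_zero hv0 (hpol _ (delta_ne hdeg b))).isUnit
  refine ⟨oext (algebraMap (CRing (D T)) M) hu, fun a => oext_map _ hu a, fun i => ?_⟩
  obtain ⟨φ, hφ⟩ : ∃ φ : Ring T b →+* M, φ = oext (algebraMap (CRing (D T)) M) hu := ⟨_, rfl⟩
  rw [← hφ]
  obtain ⟨ψ, hψ⟩ : ∃ ψ : K[X] →+* M, ψ = φ.comp (opol (D T) (delta T b)) := ⟨_, rfl⟩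
  have hψa : ∀ p, φ (opol (D T) (delta T b) p) = ψ p := fun p => by rw [hψ]; rfl
  obtain ⟨Y, hY⟩ : ∃ Y : M, Y = φ (ov (D T) (delta T b)) := ⟨_, rfl⟩
  have hY2 : Y ^ 2 = ψ X * (ψ T ^ 2 - 4) := by
    rw [hY, ← map_pow, ov_sq, hψa]
    unfold D
    rw [map_mul, map_sub, map_pow]
    congr 2
    have h6 : (C 4 : K[X]) = 4 := rfl
    rw [h6, map_ofNat]
  have hY0 : Y ≠ 0 := by
    rw [hY]
    exact ((isUnit_ov (D T) (delta T b)).map φ).ne_zero
  have hC2 : ψ (C 2) = 2 := by
    have h6 : (C 2 : K[X]) = 2 := rfl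
    rw [h6, map_ofNat]
  have hu1 : ψ X * (ψ T + 2) ≠ 0 := by
    have h1 := ((isUnit_XT T b).map φ).ne_zero
    rw [hψa, map_mul, map_add, hC2] at h1
    exact h1
  have hX0 : ψ X ≠ 0 := left_ne_zero_of_mul hu1
  have hT2 : ψ T + 2 ≠ 0 := right_ne_zero_of_mul hu1
  have hT4 : ψ T - 2 ≠ 0 := by
    have h1 := ((isUnit_TT T b).map φ).ne_zero
    rw [hψa, map_mul, map_add, map_sub, hC2] at h1
    exact right_ne_zero_of_mul h1
  have hchar : CharZero M := by
    have h1 : Function.Injective (ψ.comp C) := (ψ.comp C).injective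
    exact charZero_of_injective_ringHom h1
  have hCb : ψ (C (b i)) = (ψ.comp C) (b i) := rfl
  obtain ⟨c, hc⟩ : ∃ c : K →+* M, c = ψ.comp C := ⟨_, rfl⟩
  rw [← hc] at hCb
  have hτ : T.eval₂ c (ψ X) = ψ T := by rw [hc, ← map_poly]
  obtain ⟨w, hw⟩ : ∃ w : M, w = (ψ T + 2) * ψ X / Y := ⟨_, rfl⟩
  have hwY : w * Y = (ψ T + 2) * ψ X := by rw [hw, div_mul_cancel₀ _ hY0]
  have hw2 : w ^ 2 * (ψ T - 2) = ψ X * (ψ T + 2) := by
    have h1 : w ^ 2 * Y ^ 2 = ((ψ T + 2) * ψ X) ^ 2 := by rw [← mul_pow, hwY]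
    rw [hY2] at h1
    refine mul_left_cancel₀ hu1 ?_
    linear_combination h1
  have hn : ∀ y, φ (num T b y) = ψ (X * (T + C 2)) + ψ (C y) * Y := fun y => by
    unfold num
    rw [map_add φ, map_mul φ, hψa, hψa, ← hY]
  have hXT : ψ (X * (T + C 2)) = Y * w := by
    rw [map_mul, map_add, hC2, mul_comm Y w, hwY]
    ring
  have hnum : φ (num T b (b i)) = Y * (w + c (b i)) := by
    rw [hn, hXT, hCb]
    ring
  have hden : φ (num T b (-b i)) = Y * (w - c (b i)) := by
    rw [hn, hXT, C_neg, map_neg, hCb]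
    ring
  have hden0 : w - c (b i) ≠ 0 := by
    have h1 := ((isUnit_den T b i).map φ).ne_zero
    rw [hden] at h1
    exact right_ne_zero_of_mul h1
  have hub : c (b i) ^ 2 - ψ X ≠ 0 := by
    have h1 := ((isUnit_sub T b i).map φ).ne_zero
    rw [hψa, map_sub] at h1
    intro h2
    apply h1
    have h3 : ψ (C (b i ^ 2)) = c (b i) ^ 2 := by rw [C_pow, map_pow, hCb]
    rw [h3]
    linear_combination -h2
  unfold sym
  rw [KQ.map_symb]
  unfold Unramified
  simp only [Submodule.mem_iInf]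
  intro v _
  have hsy : (fun j => Units.map (φ : Ring T b →* M) ((![f T b i, g T b i] : Fin 2 → _) j)) =
      ![Units.map (φ : Ring T b →* M) (f T b i), Units.map (φ : Ring T b →* M) (g T b i)] := by
    funext j
    fin_cases j <;> rfl
  rw [hsy]
  refine mem_unitPart c v s hT (hb i) (hκ i) (u := ψ X) (w := w) ?_ two_ne_zero ?_ ?_ hden0 hub
    ?_ ?_
  · rw [hw]
    exact div_ne_zero (mul_ne_zero hT2 hX0) hY0
  · rw [hτ]
    linear_combination hw2
  · rw [hτ]
    refine mul_left_cancel₀ hT4 ?_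
    linear_combination (ψ T + 2 - 4) * hw2
  · have h1 := congrArg φ (f_mul T b i)
    rw [map_mul, hnum, hden] at h1
    show φ (f T b i : Ring T b) = _
    rw [eq_div_iff hden0]
    refine mul_left_cancel₀ hY0 ?_
    linear_combination h1
  · show φ (g T b i : Ring T b) = φ (f T b i : Ring T b) ^ 2 - T.eval₂ c (ψ X) *
      φ (f T b i : Ring T b) + 1
    rw [g_val, map_add, map_sub, map_mul, map_pow, map_one, hψa, hτ]

end Pool.Agent.V5helper83.EQ.Even
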