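import Pool.Agent.V5helper83.EQ.EvenAlg

/-!
The regulators of the symbols `{f_i, f_i² - T f_i + 1}` on the curves `v² = u (T(u)² - 4)`.
-/

set_option autoImplicit false

namespace Pool.Agent.V5helper83.EQ

open Polynomial

/-- The radii of the points above the zeros of `P` on the curve `z² - t z + 1 = 0`, `t = T(u)`. -/
theorem finite_radii {P : ℂ[X]} (hP : P ≠ 0) (T : ℂ → ℂ) :
    {R : ℝ | ∃ u z : ℂ, P.eval u = 0 ∧ z ^ 2 - T u * z + 1 = 0 ∧ ‖z‖ = R}.Finite := by
  have h1 : {u : ℂ | P.eval u = 0}.Finite := by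
    refine (P.roots.toFinset.finite_toSet).subset fun u hu => ?_
    rw [Finset.mem_coe, Multiset.mem_toFinset, mem_roots hP]
    exact hu
  have h2 : ∀ t : ℂ, {z : ℂ | z ^ 2 - t * z + 1 = 0}.Finite := by
    intro t
    have h3 : (X ^ 2 - C t * X + 1 : ℂ[X]) ≠ 0 := by
      intro h0
      have h4 := congrArg (fun p => p.coeff 2) h0
      simp [coeff_one] at h4
    refine ((X ^ 2 - C t * X + 1 : ℂ[X]).roots.toFinset.finite_toSet).subset fun z hz => ?_
    rw [Finset.mem_coe, Multiset.mem_toFinset, mem_roots h3, IsRoot.def]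
    simpa using hz
  refine (h1.biUnion fun u _ => (h2 (T u)).image fun z => ‖z‖).subset ?_
  rintro R ⟨u, z, hu, hz, hR⟩
  rw [Set.mem_iUnion₂]
  exact ⟨u, hu, z, hz, hR⟩

end Pool.Agent.V5helper83.EQ

namespace Pool.Agent.V5helper83.EQ.Even

open Polynomial

open Pool.Agent.TH826.MK (Torus symb KQ circ norm_circ circ_add_one contDiff_circ)

open Pool.Agent.TH826.UH (NZ pr nz_circ)

open Pool.Agent.V5helper83.EQ

variable {K : Type*} [Field K] {h : ℕ}

theorem independent (s : K →+* ℂ) {T : K[X]} (hT : 1 ≤ T.natDegree) {b : Fin h → K}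
    (H : HasLoops ((T.map s).comp (X ^ 2)) fun i => s (b i)) : IndependentRegulators s T b := by
  have hP0 : (X * delta T b).map s ≠ 0 :=
    (Polynomial.map_ne_zero_iff s.injective).2 (mul_ne_zero X_ne_zero (delta_ne hT b))
  obtain ⟨R, x, hR, hRS, hx, px, hcurve, hβ, hdet⟩ := H _ (finite_radii hP0 fun u => T.eval₂ s u)
  have hR0 : (0 : ℝ) < R := zero_lt_one.trans hR
  have hF : ∀ y : ℂ, ((T.map s).comp (X ^ 2)).eval y = T.eval₂ s (y ^ 2) := fun y => by
    rw [eval_comp, eval_pow, eval_X, eval_map]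
  have hZ0 : ∀ t, circ R t ≠ 0 := (nz_circ hR0).ne_zero
  have hZn : ∀ t, ‖circ R t‖ = R := norm_circ hR0.le
  have hZ1 : ∀ t, circ R t ^ 2 - 1 ≠ 0 := fun t h0 => by
    have h1 : circ R t ^ 2 = 1 := sub_eq_zero.1 h0
    have h2 := congrArg (fun z : ℂ => ‖z‖) h1
    simp only [norm_pow, hZn, norm_one] at h2
    nlinarith
  have hZZ : ∀ t, circ R t - (circ R t)⁻¹ ≠ 0 := fun t h0 => hZ1 t (by
    have h1 := congrArg (fun z => circ R t * z) h0
    simp only [mul_sub, mul_inv_cancel₀ (hZ0 t), mul_zero] at h1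
    rw [sq]
    exact h1)
  have hT2 : ∀ l t, T.eval₂ s (x l t ^ 2) = circ R t + (circ R t)⁻¹ := fun l t => by
    have h1 := hcurve l t
    rw [hF] at h1
    have h2 := hZ0 t
    refine mul_right_cancel₀ h2 ?_
    rw [add_mul, inv_mul_cancel₀ h2]
    linear_combination -h1
  have hbad : ∀ l t, (X * delta T b).eval₂ s (x l t ^ 2) ≠ 0 := fun l t h0 => hRS
    ⟨x l t ^ 2, circ R t, by rw [eval_map]; exact h0, by rw [← hF]; exact hcurve l t, hZn t⟩
  have hx0 : ∀ l t, x l t ≠ 0 := fun l t h0 => hbad l t (by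
    rw [eval₂_mul, eval₂_X, h0, zero_pow two_ne_zero, zero_mul])
  have hδ : ∀ l t, (delta T b).eval₂ s (x l t ^ 2) ≠ 0 := fun l t h0 => hbad l t (by
    rw [eval₂_mul, h0, mul_zero])
  have hhom : ∀ l, ∃ φ : COpen (D T) (delta T b) →+* CC,
      (∀ p θ, (φ (opol (D T) (delta T b) p)).1 θ = p.eval₂ s (x l (θ 0) ^ 2)) ∧
      ∀ θ, (φ (ov (D T) (delta T b))).1 θ =
        x l (θ 0) * (circ R (θ 0) - (circ R (θ 0))⁻¹) := by
    intro l
    refine exists_hom (U := fun t => x l t ^ 2)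
      (V := fun t => x l t * (circ R t - (circ R t)⁻¹)) ((hx l).pow 2)
      ((hx l).mul ((contDiff_circ R).sub ((contDiff_circ R).inv hZ0))) (fun t => ?_)
      (fun t => ?_) (fun t => ?_) (fun t => mul_ne_zero (hx0 l t) (hZZ t)) (hδ l)
    · rw [px]
    · rw [px, circ_add_one]
    · unfold D
      have h4 : (C 4 : K[X]).eval₂ s (x l t ^ 2) = 4 := by rw [eval₂_C, map_ofNat]
      rw [eval₂_mul, eval₂_X, eval₂_sub, eval₂_pow, h4, hT2]
      have h2 := hZ0 t
      field_simp
      ring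
  choose φ hφ hφv using hhom
  refine ⟨fun l => torOf (φ l), fun l θ y => ?_, ?_⟩
  · rw [torOf_e, hφ, eval₂_C]
  have hreg : ∀ l i, (torOf (φ l)).reg (sym T b i) =
      pr (circ R) (fun t => x l t - s (b i)) - pr (circ R) (fun t => x l t + s (b i)) := by
    intro l i
    have hnum : ∀ (y : K) (θ : Fin 1 → ℝ), (φ l (num T b y)).1 θ =
        x l (θ 0) * (circ R (θ 0) + 1) * (circ R (θ 0))⁻¹ *
          (circ R (θ 0) * (x l (θ 0) + s y) + (x l (θ 0) - s y)) := by
      intro y θ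
      unfold num
      rw [map_add (φ l), map_mul (φ l) (opol (D T) (delta T b) (C y))]
      show (φ l (opol (D T) (delta T b) (X * (T + C 2)))).1 θ +
        (φ l (opol (D T) (delta T b) (C y))).1 θ * (φ l (ov (D T) (delta T b))).1 θ = _
      rw [hφ, hφ, hφv, eval₂_mul, eval₂_X, eval₂_add, eval₂_C, eval₂_C, hT2, map_ofNat]
      have h2 := hZ0 (θ 0)
      field_simp
      ring
    have hval : ∀ u : (Ring T b)ˣ, ∀ θ, (φ l (u : Ring T b)).1 θ ≠ 0 := by
      intro u θ
      have h1 : IsUnit (evC θ (φ l (u : Ring T b))) := (u.isUnit.map (φ l)).map (evC θ)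
      exact h1.ne_zero
    have hP : ∀ t, circ R t * (x l t + s (b i)) + (x l t - s (b i)) ≠ 0 := fun t => by
      have h1 := hval (isUnit_num T b i).unit (fun _ => t)
      rw [IsUnit.unit_spec, hnum] at h1
      exact right_ne_zero_of_mul h1
    have hQ : ∀ t, circ R t * (x l t - s (b i)) + (x l t + s (b i)) ≠ 0 := fun t => by
      have h1 := hval (isUnit_den T b i).unit (fun _ => t)
      rw [IsUnit.unit_spec, hnum, map_neg, sub_neg_eq_add, ← sub_eq_add_neg] at h1
      exact right_ne_zero_of_mul h1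
    have hf : ∀ θ, (φ l (f T b i : Ring T b)).1 θ =
        (circ R (θ 0) * (x l (θ 0) + s (b i)) + (x l (θ 0) - s (b i))) /
          (circ R (θ 0) * (x l (θ 0) - s (b i)) + (x l (θ 0) + s (b i))) := by
      intro θ
      have h1 : φ l (f T b i : Ring T b) * φ l (num T b (-b i)) = φ l (num T b (b i)) := by
        rw [← map_mul, f_mul]
      have h2 : (φ l (f T b i : Ring T b)).1 θ * (φ l (num T b (-b i))).1 θ =
          (φ l (num T b (b i))).1 θ := congrArg (fun a : CC => a.1 θ) h1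
      have h3 := hval (isUnit_den T b i).unit θ
      rw [IsUnit.unit_spec] at h3
      rw [hnum, hnum, map_neg, sub_neg_eq_add, ← sub_eq_add_neg] at h2
      rw [hnum, map_neg, sub_neg_eq_add, ← sub_eq_add_neg] at h3
      rw [eq_div_iff (hQ (θ 0))]
      refine mul_left_cancel₀ (left_ne_zero_of_mul h3) ?_
      linear_combination h2
    have hg : ∀ θ, (φ l (g T b i : Ring T b)).1 θ = (φ l (f T b i : Ring T b)).1 θ ^ 2 -
        (circ R (θ 0) + (circ R (θ 0))⁻¹) * (φ l (f T b i : Ring T b)).1 θ + 1 := by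
      intro θ
      rw [g_val, map_add, map_sub, map_mul, map_pow, map_one]
      show (φ l (f T b i : Ring T b)).1 θ ^ 2 -
        (φ l (opol (D T) (delta T b) T)).1 θ * (φ l (f T b i : Ring T b)).1 θ + 1 = _
      rw [hφ, hT2]
    have hsm : ∀ u : (Ring T b)ˣ, NZ fun t => (φ l (u : Ring T b)).1 fun _ => t := by
      intro u
      refine ⟨(φ l (u : Ring T b)).2.1.comp ?_, fun t => hval u _⟩
      exact contDiff_pi.2 fun _ => contDiff_id
    have he : ∀ θ : Fin 1 → ℝ, θ = fun _ => θ 0 := fun θ => by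
      funext i
      rw [Subsingleton.elim i 0]
    unfold sym
    rw [torOf_reg (φ l) (f T b i) (g T b i)
      (f := fun t => (φ l (f T b i : Ring T b)).1 fun _ => t)
      (g := fun t => (φ l (g T b i : Ring T b)).1 fun _ => t)
      (fun θ => by rw [← he]) (fun θ => by rw [← he]) (hsm _) (hsm _)]
    exact pr_main (nz_circ hR0) (circ_add_one R) (hx l) (px l)
      (fun t h0 => (hβ l i t).2 (eq_neg_of_add_eq_zero_left h0))
      (fun t => sub_ne_zero.2 (hβ l i t).1) hP hQ hZ1 (fun t => hf _) fun t => hg _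
  simp only [hreg]
  exact hdet

end Pool.Agent.V5helper83.EQ.Even
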