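import Pool.Agent.TH826.UH.Pair

/-!
The interface between the analytic and the algebraic part for the quotients of the curves
`z + 1/z = F(x)`, `F(-x) = F(x)` or `F(-x) = -F(x)`.
-/

set_option autoImplicit false

namespace Pool.Agent.V5helper83.EQ

open Polynomial

open Pool.Agent.TH826.MK (circ)

open Pool.Agent.TH826.UH (pr)

/-- There are `h` loops `(x l, circ R)` on the curve `z + 1/z = F(x)` over the circle `|z| = R`, for a
radius `R > 1` outside of any given finite set, not through the points with `x = ± β i`, such that the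
determinant of the regulators of the `h` symbols `{z, (x - β i) / (x + β i)}` does not vanish. -/
def HasLoops (F : ℂ[X]) {h : ℕ} (β : Fin h → ℂ) : Prop :=
  ∀ S : Set ℝ, S.Finite → ∃ (R : ℝ) (x : Fin h → ℝ → ℂ), 1 < R ∧ R ∉ S ∧
    (∀ l, ContDiff ℝ 2 (x l)) ∧ (∀ l t, x l (t + 1) = x l t) ∧
    (∀ l t, circ R t ^ 2 - F.eval (x l t) * circ R t + 1 = 0) ∧
    (∀ l i t, x l t ≠ β i ∧ x l t ≠ -β i) ∧
    (Matrix.of fun l i => pr (circ R) (fun t => x l t - β i) -
      pr (circ R) (fun t => x l t + β i)).det ≠ 0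

end Pool.Agent.V5helper83.EQ
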