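import Pool.Agent.V5helper83.EQ.LoopsDef
import Pool.Agent.TH826.MK.Torus

/-!
The regulator of the symbol `{f, f² - (z + 1/z) f + 1}`,
`f = (z (x + β) + (x - β)) / (z (x - β) + (x + β))`, is the one of `{z, (x - β) / (x + β)}`.
-/

set_option autoImplicit false

namespace Pool.Agent.V5helper83.EQ

open Pool.Agent.TH826.UH (pr NZ pr_mul pr_neg pr_one pr_div pairing_eq_pr)

open Pool.Agent.TH826.MK (pairing_steinberg Good Per)

variable {G G' H H' : ℝ → ℂ}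

theorem pr_symm (G H : ℝ → ℂ) : pr G H = -pr H G := by
  unfold pr
  rw [← intervalIntegral.integral_neg]
  refine intervalIntegral.integral_congr fun s _ => ?_
  ring

theorem pr_self (G : ℝ → ℂ) : pr G G = 0 := by
  have h := pr_symm G G
  linarith

theorem pr_mul_left (hG : NZ G) (hG' : NZ G') (hH : NZ H) :
    pr (fun s => G s * G' s) H = pr G H + pr G' H := by
  rw [pr_symm, pr_mul hH hG hG', pr_symm G, pr_symm G']
  ring

theorem pr_div_left (hG : NZ G) (hG' : NZ G') (hH : NZ H) :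
    pr (fun s => G s / G' s) H = pr G H - pr G' H := by
  rw [pr_symm, pr_div hH hG hG', pr_symm G, pr_symm G']
  ring

theorem pr_steinberg (hG : NZ G) (hH : NZ H) (pG : ∀ t, G (t + 1) = G t)
    (pH : ∀ t, H (t + 1) = H t) (h : ∀ t, G t + H t = 1) : pr G H = 0 := by
  rw [← pairing_eq_pr hG hH]
  have h0 : ∀ (θ : Fin 1 → ℝ) (i : Fin 1), (θ + Pi.single i 1 : Fin 1 → ℝ) 0 = θ 0 + 1 := by
    intro θ i
    rw [Pi.add_apply, Subsingleton.elim i 0, Pi.single_eq_same]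
  refine pairing_steinberg (p := 0) (q := 1) (fun l => ?_) (fun l => ?_) (by decide) fun θ => ?_
  · fin_cases l
    · exact ⟨hG.smooth.comp (contDiff_apply ℝ ℝ 0), fun θ => hG.ne_zero _⟩
    · exact ⟨hH.smooth.comp (contDiff_apply ℝ ℝ 0), fun θ => hH.ne_zero _⟩
  · fin_cases l
    · intro θ i
      show G ((θ + Pi.single i 1 : Fin 1 → ℝ) 0) = G (θ 0)
      rw [h0, pG]
    · intro θ i
      show H ((θ + Pi.single i 1 : Fin 1 → ℝ) 0) = H (θ 0)
      rw [h0, pH]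
  · exact h (θ 0)

theorem pr_six {P Q Z B D : ℝ → ℂ} (hP : NZ P) (hQ : NZ Q) (hZ : NZ Z) (hB : NZ B) (hD : NZ D) :
    pr (fun t => P t / (Q t * Z t)) (fun t => B t * D t / (Q t * Z t)) =
      (pr P B + pr P D - (pr P Q + pr P Z)) - ((pr Q B + pr Q D - (pr Q Q + pr Q Z)) +
        (pr Z B + pr Z D - (pr Z Q + pr Z Z))) := by
  have hQZ := hQ.mul hZ
  have hBD := hB.mul hD
  have hR := hBD.div hQZ
  rw [pr_div_left hP hQZ hR, pr_mul_left hQ hZ hR, pr_div hP hBD hQZ, pr_div hQ hBD hQZ,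
    pr_div hZ hBD hQZ, pr_mul hP hB hD, pr_mul hQ hB hD, pr_mul hZ hB hD, pr_mul hP hQ hZ,
    pr_mul hQ hQ hZ, pr_mul hZ hQ hZ]

theorem pr_six' {P Q Z A D : ℝ → ℂ} (hP : NZ P) (hQ : NZ Q) (hZ : NZ Z) (hA : NZ A) (hD : NZ D) :
    pr (fun t => P t * Z t / Q t) (fun t => -(A t * D t / Q t)) =
      (pr P A + pr P D - pr P Q) + (pr Z A + pr Z D - pr Z Q) - (pr Q A + pr Q D - pr Q Q) := by
  have hPZ := hP.mul hZ
  have hAD := hA.mul hD
  have hR := hAD.div hQ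
  rw [pr_neg, pr_div_left hPZ hQ hR, pr_mul_left hP hZ hR, pr_div hP hAD hQ, pr_div hZ hAD hQ,
    pr_div hQ hAD hQ, pr_mul hP hA hD, pr_mul hZ hA hD, pr_mul hQ hA hD]

/-- **The regulator of the transferred symbol.** -/
theorem pr_main {Z X : ℝ → ℂ} {β : ℂ} (hZ : NZ Z) (pZ : ∀ t, Z (t + 1) = Z t)
    (hX : ContDiff ℝ 2 X) (pX : ∀ t, X (t + 1) = X t) (hA : ∀ t, X t + β ≠ 0)
    (hB : ∀ t, X t - β ≠ 0) (hP : ∀ t, Z t * (X t + β) + (X t - β) ≠ 0)
    (hQ : ∀ t, Z t * (X t - β) + (X t + β) ≠ 0) (hD : ∀ t, Z t ^ 2 - 1 ≠ 0) {f g : ℝ → ℂ}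
    (hf : ∀ t, f t = (Z t * (X t + β) + (X t - β)) / (Z t * (X t - β) + (X t + β)))
    (hg : ∀ t, g t = f t ^ 2 - (Z t + (Z t)⁻¹) * f t + 1) :
    pr f g = pr Z (fun t => X t - β) - pr Z (fun t => X t + β) := by
  obtain ⟨A, hAe⟩ : ∃ A : ℝ → ℂ, A = fun t => X t + β := ⟨_, rfl⟩
  obtain ⟨B, hBe⟩ : ∃ B : ℝ → ℂ, B = fun t => X t - β := ⟨_, rfl⟩
  obtain ⟨P, hPe⟩ : ∃ P : ℝ → ℂ, P = fun t => Z t * (X t + β) + (X t - β) := ⟨_, rfl⟩
  obtain ⟨Q, hQe⟩ : ∃ Q : ℝ → ℂ, Q = fun t => Z t * (X t - β) + (X t + β) := ⟨_, rfl⟩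
  obtain ⟨D, hDe⟩ : ∃ D : ℝ → ℂ, D = fun t => Z t ^ 2 - 1 := ⟨_, rfl⟩
  have nA : NZ A := by
    rw [hAe]
    exact ⟨hX.add contDiff_const, hA⟩
  have nB : NZ B := by
    rw [hBe]
    exact ⟨hX.sub contDiff_const, hB⟩
  have nP : NZ P := by
    rw [hPe]
    exact ⟨(hZ.smooth.mul (hX.add contDiff_const)).add (hX.sub contDiff_const), hP⟩
  have nQ : NZ Q := by
    rw [hQe]
    exact ⟨(hZ.smooth.mul (hX.sub contDiff_const)).add (hX.add contDiff_const), hQ⟩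
  have nD : NZ D := by
    rw [hDe]
    exact ⟨(hZ.smooth.pow 2).sub contDiff_const, hD⟩
  have eP : ∀ t, P t = Z t * A t + B t := fun t => by rw [hPe, hAe, hBe]
  have eQ : ∀ t, Q t = Z t * B t + A t := fun t => by rw [hQe, hAe, hBe]
  have eD : ∀ t, D t = Z t ^ 2 - 1 := fun t => by rw [hDe]
  have pA : ∀ t, A (t + 1) = A t := fun t => by rw [hAe]; simp only [pX]
  have pB : ∀ t, B (t + 1) = B t := fun t => by rw [hBe]; simp only [pX]
  have pP : ∀ t, P (t + 1) = P t := fun t => by rw [eP, eP, pZ, pA, pB]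
  have pQ : ∀ t, Q (t + 1) = Q t := fun t => by rw [eQ, eQ, pZ, pA, pB]
  have pD : ∀ t, D (t + 1) = D t := fun t => by rw [eD, eD, pZ]
  -- the Steinberg relations
  have s1 : pr (fun t => P t / (Q t * Z t)) (fun t => B t * D t / (Q t * Z t)) = 0 := by
    refine pr_steinberg (nP.div (nQ.mul hZ)) ((nB.mul nD).div (nQ.mul hZ)) (fun t => ?_)
      (fun t => ?_) fun t => ?_
    · rw [pP, pQ, pZ]
    · rw [pB, pD, pQ, pZ]
    · have h1 := nQ.ne_zero t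
      have h2 := hZ.ne_zero t
      rw [← add_div, div_eq_one_iff_eq (mul_ne_zero h1 h2), eP, eQ, eD]
      ring
  have s2 : pr (fun t => P t * Z t / Q t) (fun t => -(A t * D t / Q t)) = 0 := by
    refine pr_steinberg ((nP.mul hZ).div nQ) ((nA.mul nD).div nQ).neg (fun t => ?_)
      (fun t => ?_) fun t => ?_
    · rw [pP, pQ, pZ]
    · rw [pA, pD, pQ]
    · have h1 := nQ.ne_zero t
      rw [← sub_eq_add_neg, ← sub_div, div_eq_one_iff_eq h1, eP, eQ, eD]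
      ring
  rw [pr_six nP nQ hZ nB nD] at s1
  rw [pr_six' nP nQ hZ nA nD] at s2
  -- the second entry
  have ef : f = fun t => P t / Q t := by
    funext t
    rw [hf t, hPe, hQe]
  have eg : g = fun t => -(A t * B t * (D t * D t) / (Z t * (Q t * Q t))) := by
    funext t
    have h1 := nQ.ne_zero t
    have h2 := hZ.ne_zero t
    rw [hg t, ef]
    simp only
    field_simp
    rw [eP, eQ, eD]
    ring
  have hAB := nA.mul nB
  have hDD := nD.mul nD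
  have hQQ := nQ.mul nQ
  have hN := hAB.mul hDD
  have hM := hZ.mul hQQ
  rw [ef, eg, pr_neg, pr_div_left nP nQ (hN.div hM), pr_div nP hN hM, pr_div nQ hN hM,
    pr_mul nP hAB hDD, pr_mul nQ hAB hDD, pr_mul nP nA nB, pr_mul nQ nA nB, pr_mul nP nD nD,
    pr_mul nQ nD nD, pr_mul nP hZ hQQ, pr_mul nQ hZ hQQ, pr_mul nP nQ nQ, pr_mul nQ nQ nQ]
  have h5 : pr Z (fun t => X t - β) = pr Z B := by rw [hBe]
  have h6 : pr Z (fun t => X t + β) = pr Z A := by rw [hAe]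
  rw [h5, h6]
  have h7 := pr_self Q
  have h8 := pr_self Z
  have h9 := pr_symm Z Q
  linarith

end Pool.Agent.V5helper83.EQ
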