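import Mathlib

/-!
The coordinate ring of the affine curve `v² = D(u)` and of its open part `v δ(u) ≠ 0`.
-/

set_option autoImplicit false

namespace Pool.Agent.V5helper83.EQ

open Polynomial

universe u

variable {K : Type u} [Field K]

/-- The equation `v² - D(u)` of the curve. -/
noncomputable def eqn (D : K[X]) : K[X][X] := X ^ 2 - C D

/-- The coordinate ring `K[u, v] / (v² - D(u))` of the affine curve `v² = D(u)`. -/
def CRing (D : K[X]) : Type u := AdjoinRoot (eqn D)

noncomputable instance commRing (D : K[X]) : CommRing (CRing D) :=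
  AdjoinRoot.instCommRing (eqn D)

/-- Polynomials in `u` as elements of the coordinate ring. -/
noncomputable def cpol (D : K[X]) : K[X] →+* CRing D := AdjoinRoot.of (eqn D)

/-- The coordinate `v`. -/
noncomputable def cv (D : K[X]) : CRing D := AdjoinRoot.root (eqn D)

theorem cv_sq (D : K[X]) : cv D ^ 2 = cpol D D := by
  have h := AdjoinRoot.eval₂_root (eqn D)
  unfold eqn at h
  rw [eval₂_sub, eval₂_X_pow, eval₂_C, sub_eq_zero] at h
  exact h

/-- The coordinate ring of the open part `v δ(u) ≠ 0`. -/
def COpen (D δ : K[X]) : Type u := Localization.Away (cv D * cpol D δ)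

noncomputable instance commRingOpen (D δ : K[X]) : CommRing (COpen D δ) :=
  (OreLocalization.instCommRing : CommRing (Localization.Away (cv D * cpol D δ)))

/-- Regular functions on the curve as functions on the open part. -/
noncomputable def toOpen (D δ : K[X]) : CRing D →+* COpen D δ :=
  algebraMap (CRing D) (Localization.Away (cv D * cpol D δ))

/-- Polynomials in `u` as functions on the open part. -/
noncomputable def opol (D δ : K[X]) : K[X] →+* COpen D δ := (toOpen D δ).comp (cpol D)

/-- The coordinate `v` as a function on the open part. -/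
noncomputable def ov (D δ : K[X]) : COpen D δ := toOpen D δ (cv D)

theorem ov_sq (D δ : K[X]) : ov D δ ^ 2 = opol D δ D := by
  unfold ov
  rw [← map_pow, cv_sq]
  rfl

theorem isUnit_both (D δ : K[X]) : IsUnit (ov D δ * opol D δ δ) := by
  have h := IsLocalization.Away.algebraMap_isUnit
    (S := Localization.Away (cv D * cpol D δ)) (cv D * cpol D δ)
  have h1 : IsUnit (toOpen D δ (cv D * cpol D δ)) := h
  rw [map_mul] at h1
  exact h1

theorem isUnit_ov (D δ : K[X]) : IsUnit (ov D δ) := isUnit_of_mul_isUnit_left (isUnit_both D δ)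

theorem isUnit_opol {D δ p : K[X]} (h : p ∣ δ) : IsUnit (opol D δ p) := by
  obtain ⟨q, hq⟩ := h
  have e : opol D δ δ = opol D δ p * opol D δ q := by rw [← map_mul, ← hq]
  have h1 := isUnit_of_mul_isUnit_right (isUnit_both D δ)
  rw [e] at h1
  exact isUnit_of_mul_isUnit_left h1

theorem isUnit_opol_D {D δ p : K[X]} (h : p ∣ D) : IsUnit (opol D δ p) := by
  obtain ⟨q, hq⟩ := h
  have e : opol D δ D = opol D δ p * opol D δ q := by rw [← map_mul, ← hq]
  have h1 := (isUnit_ov D δ).pow 2
  rw [ov_sq, e] at h1
  exact isUnit_of_mul_isUnit_left h1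

section ev

variable {S : Type*} [CommRing S]

/-- The homomorphism on the coordinate ring defined by a solution `(u, v)`. -/
noncomputable def cev {D : K[X]} (k : K →+* S) (u v : S) (h : v ^ 2 = D.eval₂ k u) :
    CRing D →+* S :=
  AdjoinRoot.lift (f := eqn D) (Polynomial.eval₂RingHom k u) v (by
    unfold eqn
    rw [eval₂_sub, eval₂_X_pow, eval₂_C, sub_eq_zero]
    exact h)

theorem cev_cpol {D : K[X]} (k : K →+* S) (u v : S) (h : v ^ 2 = D.eval₂ k u) (p : K[X]) :
    cev k u v h (cpol D p) = p.eval₂ k u :=
  AdjoinRoot.lift_of _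

theorem cev_cv {D : K[X]} (k : K →+* S) (u v : S) (h : v ^ 2 = D.eval₂ k u) :
    cev k u v h (cv D) = v :=
  AdjoinRoot.lift_root _

/-- The extension to the open part. -/
noncomputable def oext {D δ : K[X]} (g : CRing D →+* S) (h : IsUnit (g (cv D * cpol D δ))) :
    COpen D δ →+* S :=
  IsLocalization.Away.lift (S := Localization.Away (cv D * cpol D δ)) (cv D * cpol D δ) h

theorem oext_map {D δ : K[X]} (g : CRing D →+* S) (h : IsUnit (g (cv D * cpol D δ)))
    (a : CRing D) : oext g h (toOpen D δ a) = g a :=
  IsLocalization.Away.lift_eq (S := Localization.Away (cv D * cpol D δ)) _ h a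

theorem oext_opol {D δ : K[X]} (g : CRing D →+* S) (h : IsUnit (g (cv D * cpol D δ)))
    (p : K[X]) : oext g h (opol D δ p) = g (cpol D p) := oext_map g h _

theorem oext_ov {D δ : K[X]} (g : CRing D →+* S) (h : IsUnit (g (cv D * cpol D δ))) :
    oext g h (ov D δ) = g (cv D) := oext_map g h _

end ev

theorem monic_eqn (D : K[X]) : (eqn D).Monic := monic_X_pow_sub_C D two_ne_zero

theorem natDegree_eqn (D : K[X]) : (eqn D).natDegree = 2 :=
  natDegree_X_pow_sub_C

/-- The coordinate ring is a domain, if the degree of `D` is odd. -/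
theorem isDomain_CRing {D : K[X]} (h : Odd D.natDegree) : IsDomain (CRing D) := by
  have hirr : Irreducible (eqn D) := by
    rw [(monic_eqn D).irreducible_iff_roots_eq_zero_of_degree_le_three (by rw [natDegree_eqn])
      (by rw [natDegree_eqn]; norm_num)]
    rw [Multiset.eq_zero_iff_forall_notMem]
    intro r hr
    have h1 := (mem_roots'.1 hr).2
    unfold eqn at h1
    rw [IsRoot.def, eval_sub, eval_pow, eval_X, eval_C, sub_eq_zero] at h1
    rw [← h1, natDegree_pow] at h
    exact (Nat.not_odd_iff_even.2 (even_two_mul _)) h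
  have hprime : Prime (eqn D) := hirr.prime
  have h2 : (Ideal.span {eqn D}).IsPrime :=
    (Ideal.span_singleton_prime hprime.ne_zero).2 hprime
  have h3 : IsDomain (K[X][X] ⧸ Ideal.span {eqn D}) := Ideal.Quotient.isDomain _
  exact h3

theorem cpol_injective (D : K[X]) : Function.Injective (cpol D) := by
  refine (injective_iff_map_eq_zero _).2 fun p hp => ?_
  have h1 : (AdjoinRoot.mk (eqn D)) (C p) = 0 := hp
  rw [AdjoinRoot.mk_eq_zero] at h1
  by_contra hne
  have h2 := (monic_eqn D).not_dvd_of_natDegree_lt (q := C p) (C_ne_zero.2 hne) (by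
    rw [natDegree_eqn, natDegree_C]
    norm_num)
  exact h2 h1

end Pool.Agent.V5helper83.EQ
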