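import Pool.Agent.V5helper83.EQ.Ring
import Pool.Agent.V5helper83.EQ.Pr

/-!
Loops in the complex points of the open part of the curve `v² = D(u)`.
-/

set_option autoImplicit false

namespace Pool.Agent.V5helper83.EQ

open Polynomial

open Pool.Agent.TH826.MK (Torus symb KQ)

open Pool.Agent.TH826.UH (pr NZ pairing_eq_pr)

theorem add_single_zero (θ : Fin 1 → ℝ) (i : Fin 1) :
    (θ + Pi.single i 1 : Fin 1 → ℝ) 0 = θ 0 + 1 := by
  rw [Pi.add_apply, Subsingleton.elim i 0, Pi.single_eq_same]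

/-- The ring of the periodic functions of class `C²`. -/
def CC : Subring ((Fin 1 → ℝ) → ℂ) where
  carrier := {g | ContDiff ℝ 2 g ∧ ∀ θ i, g (θ + Pi.single i 1) = g θ}
  mul_mem' := by
    rintro a b ⟨ha, ha'⟩ ⟨hb, hb'⟩
    exact ⟨ha.mul hb, fun θ i => by rw [Pi.mul_apply, Pi.mul_apply, ha', hb']⟩
  one_mem' := ⟨contDiff_const, fun _ _ => rfl⟩
  add_mem' := by
    rintro a b ⟨ha, ha'⟩ ⟨hb, hb'⟩
    exact ⟨ha.add hb, fun θ i => by rw [Pi.add_apply, Pi.add_apply, ha', hb']⟩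
  zero_mem' := ⟨contDiff_const, fun _ _ => rfl⟩
  neg_mem' := by
    rintro a ⟨ha, ha'⟩
    exact ⟨ha.neg, fun θ i => by rw [Pi.neg_apply, Pi.neg_apply, ha']⟩

/-- A periodic function of one variable. -/
def ofFn (g : ℝ → ℂ) (h : ContDiff ℝ 2 g) (p : ∀ t, g (t + 1) = g t) : CC :=
  ⟨fun θ => g (θ 0), h.comp (contDiff_apply ℝ ℝ 0), fun θ i => by
    show g _ = g _
    rw [add_single_zero, p]⟩

theorem isUnit_CC {a : CC} (h : ∀ θ, a.1 θ ≠ 0) : IsUnit a := by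
  refine IsUnit.of_mul_eq_one ⟨fun θ => (a.1 θ)⁻¹, a.2.1.inv h, fun θ i => ?_⟩ ?_
  · show (a.1 _)⁻¹ = _
    rw [a.2.2 θ i]
  · apply Subtype.ext
    funext θ
    exact mul_inv_cancel₀ (h θ)

/-- evaluation at `θ` -/
def evC (θ : Fin 1 → ℝ) : CC →+* ℂ := (Pi.evalRingHom (fun _ => ℂ) θ).comp CC.subtype

theorem evC_apply (θ : Fin 1 → ℝ) (a : CC) : evC θ a = a.1 θ := rfl

/-- the constants -/
def kC {K : Type*} [Field K] (s : K →+* ℂ) : K →+* CC where
  toFun y := ⟨fun _ => s y, contDiff_const, fun _ _ => rfl⟩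
  map_one' := Subtype.ext (funext fun _ => map_one s)
  map_zero' := Subtype.ext (funext fun _ => map_zero s)
  map_add' a b := Subtype.ext (funext fun _ => map_add s a b)
  map_mul' a b := Subtype.ext (funext fun _ => map_mul s a b)

theorem eval₂_kC {K : Type*} [Field K] (s : K →+* ℂ) (p : K[X]) (a : CC) (θ : Fin 1 → ℝ) :
    (p.eval₂ (kC s) a).1 θ = p.eval₂ s (a.1 θ) := by
  rw [← evC_apply, Polynomial.hom_eval₂]
  rfl

/-- The torus given by a homomorphism to the ring of functions. -/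
noncomputable def torOf {A : Type*} [CommRing A] (φ : A →+* CC) : Torus A 1 where
  e θ := (evC θ).comp φ
  smooth h := (φ h).2.1
  periodic θ i := by
    ext h
    exact (φ h).2.2 θ i

theorem torOf_e {A : Type*} [CommRing A] (φ : A →+* CC) (θ : Fin 1 → ℝ) (a : A) :
    (torOf φ).e θ a = (φ a).1 θ := rfl

theorem torOf_reg {A : Type*} [CommRing A] (φ : A →+* CC) (a b : Aˣ) {f g : ℝ → ℂ}
    (hf : ∀ θ, (φ (a : A)).1 θ = f (θ 0)) (hg : ∀ θ, (φ (b : A)).1 θ = g (θ 0)) (nf : NZ f)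
    (ng : NZ g) : (torOf φ).reg (symb ![a, b]) = pr f g := by
  rw [← pairing_eq_pr nf ng, Torus.reg_symb]
  unfold Torus.pair
  congr 1
  funext i θ
  fin_cases i
  · exact hf θ
  · exact hg θ

variable {K : Type*} [Field K] {s : K →+* ℂ} {D δ : K[X]}

/-- **Loops on the curve** `v² = D(u)`. -/
theorem exists_hom {U V : ℝ → ℂ} (hU : ContDiff ℝ 2 U) (hV : ContDiff ℝ 2 V)
    (pU : ∀ t, U (t + 1) = U t) (pV : ∀ t, V (t + 1) = V t)
    (h : ∀ t, V t ^ 2 = D.eval₂ s (U t)) (hV0 : ∀ t, V t ≠ 0) (hδ : ∀ t, δ.eval₂ s (U t) ≠ 0) :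
    ∃ φ : COpen D δ →+* CC, (∀ p θ, (φ (opol D δ p)).1 θ = p.eval₂ s (U (θ 0))) ∧
      ∀ θ, (φ (ov D δ)).1 θ = V (θ 0) := by
  have he : ofFn V hV pV ^ 2 = D.eval₂ (kC s) (ofFn U hU pU) := by
    apply Subtype.ext
    funext θ
    rw [eval₂_kC]
    exact h (θ 0)
  have hu : IsUnit (cev (kC s) (ofFn U hU pU) (ofFn V hV pV) he (cv D * cpol D δ)) := by
    rw [map_mul, cev_cv, cev_cpol]
    refine (isUnit_CC fun θ => hV0 (θ 0)).mul (isUnit_CC fun θ => ?_)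
    rw [eval₂_kC]
    exact hδ (θ 0)
  refine ⟨oext _ hu, fun p θ => ?_, fun θ => ?_⟩
  · rw [oext_opol, cev_cpol, eval₂_kC]
    rfl
  · rw [oext_ov, cev_cv]
    rfl

end Pool.Agent.V5helper83.EQ
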